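import Pool.Agent.Y386.IR.Stm3

/-!
# Project IR, part NUM: the choice of the numerator, by counting
-/

set_option autoImplicit false

namespace Pool.Agent.Y312.IR

open Pool.Agent.Y386.IR

theorem t_NUM : S_NUM := by
  intro X b D h1 h2 h3
  have hX0 : 0 ≤ X := zero_le_one.trans h1
  have hm : ⌊X⌋₊ < b := (Nat.floor_lt hX0).2 h2
  have key : ((List.range b).filter fun j => decide (1 ≤ j) && D j).length = ⌊X⌋₊ := by
    have hnd : ((List.range b).filter fun j => decide (1 ≤ j) && D j).Nodup :=
      List.nodup_range.filter _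
    rw [← List.toFinset_card_of_nodup hnd]
    have h4 : ((List.range b).filter fun j => decide (1 ≤ j) && D j).toFinset =
        Finset.Icc 1 ⌊X⌋₊ := by
      ext j
      rw [List.mem_toFinset, List.mem_filter, List.mem_range, Finset.mem_Icc, Bool.and_eq_true,
        decide_eq_true_eq]
      constructor
      · rintro ⟨hj, hj1, hj2⟩
        exact ⟨hj1, Nat.le_floor ((h3 j hj1 hj).1 hj2)⟩
      · rintro ⟨hj1, hj2⟩
        have hj : j < b := lt_of_le_of_lt hj2 hm
        exact ⟨hj, hj1, (h3 j hj1 hj).2 ((Nat.le_floor_iff hX0).1 hj2)⟩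
    rw [h4, Nat.card_Icc]
    omega
  rw [key]
  exact ⟨Nat.floor_le hX0, Nat.lt_floor_add_one X⟩

end Pool.Agent.Y312.IR
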