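import Pool.Agent.Y377.IR.Basic
import Pool.Agent.Y379.IL.FA

/-!
# Algebraic elements of the extension by a fundamental matrix, for groups of automorphisms

Adaptation of `Pool.Agent.Y379.IL.FA` from derivations to groups of automorphisms.
-/

set_option autoImplicit false

namespace Pool.Agent.Y312.IR

open Pool.Agent.Y377.EL Pool.Agent.Y377.IL Pool.Agent.Y377.IR
open Pool.Agent.Y379.IL (fin_alg ents ents_finite VV VV_fg one_mem_VV pow_mono' mem_mat_iff)

variable {K : Type} [Field K] [Algebra ℂ K] {Γ : Subgroup (K ≃ₐ[ℂ] K)}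

theorem apply_X {R : Subalgebra ℂ K} {n : ℕ} {X Y : Matrix (Fin n) (Fin n) K}
    (h : FundG Γ R X Y) (γ : K ≃ₐ[ℂ] K) (i j : Fin n) :
    γ (X i j) = ∑ k, (∑ l, γ (X i l) * Y l k) * X k j := by
  have hYX : Y * X = 1 := mul_eq_one_comm.1 h.inv
  have h1 : (X.map γ * Y) * X = X.map γ := by
    rw [mul_assoc, hYX, mul_one]
  have h2 := congrFun (congrFun h1 i) j
  rw [Matrix.mul_apply] at h2
  rw [Matrix.map_apply] at h2
  rw [← h2]
  rfl

theorem apply_Y {R : Subalgebra ℂ K} {n : ℕ} {X Y : Matrix (Fin n) (Fin n) K}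
    (h : FundG Γ R X Y) (γ : K ≃ₐ[ℂ] K) (i j : Fin n) :
    γ (Y i j) = ∑ k, Y i k * γ (∑ l, γ.symm (X k l) * Y l j) := by
  have hYX : Y * X = 1 := mul_eq_one_comm.1 h.inv
  have h1 : Y * (X * Y.map γ) = Y.map γ := by
    rw [← mul_assoc, hYX, one_mul]
  have h2 := congrFun (congrFun h1 i) j
  rw [Matrix.mul_apply] at h2
  rw [Matrix.map_apply] at h2
  rw [← h2]
  refine Finset.sum_congr rfl fun k _ => ?_
  congr 1
  rw [Matrix.mul_apply, map_sum]
  refine Finset.sum_congr rfl fun l _ => ?_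
  rw [map_mul, γ.apply_symm_apply, Matrix.map_apply]

theorem VV_stabG {R : Subalgebra ℂ K} (hR : StabG Γ R) {n : ℕ}
    {X Y : Matrix (Fin n) (Fin n) K} (h : FundG Γ R X Y) {γ : K ≃ₐ[ℂ] K} (hγ : γ ∈ Γ) :
    ∀ x ∈ VV R X Y, γ x ∈ VV R X Y := by
  intro x hx
  refine Submodule.span_induction (p := fun x _ => γ x ∈ VV R X Y) ?_ ?_ ?_ ?_ hx
  · rintro y (rfl | ⟨i, j, rfl | rfl⟩)
    · rw [map_one]
      exact one_mem_VV R X Y
    · rw [apply_X h γ]
      apply Submodule.sum_mem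
      intro k _
      exact (VV R X Y).smul_mem (⟨_, h.coc γ hγ i k⟩ : R)
        (Submodule.subset_span (Or.inr ⟨k, j, Or.inl rfl⟩))
    · rw [apply_Y h γ]
      apply Submodule.sum_mem
      intro k _
      rw [mul_comm]
      exact (VV R X Y).smul_mem (⟨_, hR γ hγ _ (h.coc γ⁻¹ (Γ.inv_mem hγ) k j)⟩ : R)
        (Submodule.subset_span (Or.inr ⟨i, k, Or.inr rfl⟩))
  · rw [map_zero]
    exact Submodule.zero_mem _
  · intro a b _ _ ha hb
    rw [map_add]
    exact Submodule.add_mem _ ha hb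
  · intro c a ha' ha
    have h1 : γ (c • a) = (⟨γ c, hR γ hγ c c.2⟩ : R) • γ a := by
      change γ ((c : K) * a) = γ (c : K) * γ a
      rw [map_mul]
    rw [h1]
    exact Submodule.smul_mem _ _ ha

theorem pow_stabG {R : Subalgebra ℂ K} (hR : StabG Γ R) {γ : K ≃ₐ[ℂ] K} (hγ : γ ∈ Γ)
    {V : Submodule R K} (hV : ∀ x ∈ V, γ x ∈ V) (N : ℕ) : ∀ x ∈ V ^ N, γ x ∈ V ^ N := by
  induction N with
  | zero =>
    intro x hx
    rw [pow_zero] at hx ⊢
    obtain ⟨r, rfl⟩ := Submodule.mem_one.1 hx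
    rw [Submodule.mem_one]
    exact ⟨⟨γ r, hR γ hγ r r.2⟩, rfl⟩
  | succ N ih =>
    intro x hx
    rw [pow_succ] at hx ⊢
    refine Submodule.mul_induction_on hx ?_ ?_
    · intro a ha b hb
      rw [map_mul]
      exact Submodule.mul_mem_mul (ih a ha) (hV b hb)
    · intro a b ha hb
      rw [map_add]
      exact Submodule.add_mem _ ha hb

/-- algebraic elements are stable under the group -/
theorem alg_stabG {R : Subalgebra ℂ K} (hR : StabG Γ R) {γ : K ≃ₐ[ℂ] K} (hγ : γ ∈ Γ) {x : K}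
    (hx : IsAlgebraic R x) : IsAlgebraic R (γ x) := by
  obtain ⟨P, hP0, hP⟩ := hx
  let g : R →+* R :=
    { toFun := fun r => ⟨γ r, hR γ hγ r r.2⟩
      map_one' := Subtype.ext (map_one γ)
      map_mul' := fun a b => Subtype.ext (map_mul γ _ _)
      map_zero' := Subtype.ext (map_zero γ)
      map_add' := fun a b => Subtype.ext (map_add γ _ _) }
  have hg : Function.Injective g := by
    intro a b hab
    exact Subtype.ext (γ.injective (congrArg Subtype.val hab))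
  refine ⟨P.map g, fun h0 => hP0 ((Polynomial.map_eq_zero_iff hg).1 h0), ?_⟩
  have h1 := Polynomial.map_aeval_eq_aeval_map (φ := g) (ψ := (γ : K →+* K)) (by
    ext r
    rfl) P x
  have h2 : (γ : K →+* K) (Polynomial.aeval x P) = 0 := by
    rw [hP, map_zero]
  rw [h1] at h2
  exact h2

theorem t_FA : Pool.Agent.Y377.IR.G_FA := by
  classical
  intro K _ _ Γ R hR hGS hN n X Y hF
  -- the modules `T_N`
  let A : Submodule R K := Subalgebra.toSubmodule (Subalgebra.algebraicClosure R K)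
  have hA : ∀ x, x ∈ A ↔ IsAlgebraic R x := fun x => Iff.rfl
  set V := VV R X Y with hV
  let T : ℕ → Submodule R K := fun N => V ^ N ⊓ A
  have hTfg : ∀ N, (T N).FG := by
    intro N
    have h1 : IsNoetherian R (V ^ N : Submodule R K) :=
      isNoetherian_of_fg_of_noetherian _ ((VV_fg R X Y).pow N)
    have h2 : IsNoetherian R (T N) := isNoetherian_of_le (inf_le_left : T N ≤ V ^ N)
    exact Module.Finite.iff_fg.1 inferInstance
  have hTG : ∀ N, ∀ γ ∈ Γ, ∀ x ∈ T N, γ x ∈ T N := by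
    intro N γ hγ x hx
    exact ⟨pow_stabG hR hγ (VV_stabG hR hF hγ) N x hx.1, alg_stabG hR hγ hx.2⟩
  have hTmono : ∀ {a b : ℕ}, a ≤ b → T a ≤ T b := by
    intro a b hab
    exact inf_le_inf_right _ (pow_mono' (one_mem_VV R X Y) hab)
  -- the fraction field
  let L : IntermediateField ℂ K := frac R
  let B : Subalgebra L K := Algebra.adjoin L (ents X Y)
  have hB : B.FG := by
    refine ⟨(ents_finite X Y).toFinset, ?_⟩
    rw [Set.Finite.coe_toFinset]
  obtain ⟨F, hFfg, hFm⟩ := fin_alg B hB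
  have hRL : ∀ r ∈ R, r ∈ L := fun r hr => le_frac R hr
  have hLalg : ∀ x ∈ L.toSubalgebra, IsAlgebraic R x := by
    rintro x ⟨r, hr, hr0, hrx⟩
    have h1 : x = r⁻¹ * (r * x) := by
      rw [← mul_assoc, inv_mul_cancel₀ hr0, one_mul]
    rw [h1]
    exact (alg_of_mem hr).inv.mul (alg_of_mem hrx)
  have halg1 : ∀ x : K, IsAlgebraic L x → IsAlgebraic R x := by
    intro x hx
    exact alg_trans (S := L.toSubalgebra) hRL hLalg hx
  have halg2 : ∀ x : K, IsAlgebraic R x → IsAlgebraic L x := by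
    intro x hx
    exact alg_mono (S := L.toSubalgebra) hRL hx
  -- elements of `B`
  have hBm : ∀ b ∈ B, ∃ r ∈ R, r ≠ 0 ∧ r * b ∈ mat R X Y := by
    intro b hb
    refine Algebra.adjoin_induction (p := fun b _ => ∃ r ∈ R, r ≠ 0 ∧ r * b ∈ mat R X Y)
      ?_ ?_ ?_ ?_ hb
    · rintro x hx
      refine ⟨1, R.one_mem, one_ne_zero, ?_⟩
      rw [one_mul, mem_mat_iff]
      refine ⟨1, ?_⟩
      rw [pow_one]
      exact Submodule.subset_span hx
    · rintro ⟨l, r, hr, hr0, hrl⟩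
      exact ⟨r, hr, hr0, (le_sup_left : R ≤ mat R X Y) hrl⟩
    · rintro x y _ _ ⟨r, hr, hr0, hx⟩ ⟨s, hs, hs0, hy⟩
      refine ⟨r * s, R.mul_mem hr hs, mul_ne_zero hr0 hs0, ?_⟩
      have h1 : r * s * (x + y) = s * (r * x) + r * (s * y) := by ring
      rw [h1]
      exact Subalgebra.add_mem _
        (Subalgebra.mul_mem _ ((le_sup_left : R ≤ mat R X Y) hs) hx)
        (Subalgebra.mul_mem _ ((le_sup_left : R ≤ mat R X Y) hr) hy)
    · rintro x y _ _ ⟨r, hr, hr0, hx⟩ ⟨s, hs, hs0, hy⟩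
      refine ⟨r * s, R.mul_mem hr hs, mul_ne_zero hr0 hs0, ?_⟩
      have h1 : r * s * (x * y) = (r * x) * (s * y) := by ring
      rw [h1]
      exact Subalgebra.mul_mem _ hx hy
  have hMB : ∀ x ∈ mat R X Y, x ∈ B := by
    have h1 : mat R X Y ≤ B.restrictScalars ℂ := by
      refine sup_le ?_ (Algebra.adjoin_le ?_)
      · intro r hr
        exact B.algebraMap_mem (⟨r, hRL r hr⟩ : L)
      · rintro y ⟨i, j, hy⟩
        exact Algebra.subset_adjoin (Or.inr ⟨i, j, hy⟩)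
    exact fun x hx => h1 hx
  -- a bound for the denominators of the generators
  obtain ⟨S, hS⟩ := hFfg
  have hgen : ∀ c ∈ S, ∃ r ∈ R, r ≠ 0 ∧ ∃ N, r * c ∈ T N := by
    intro c hc
    have h1 : c ∈ F := hS ▸ Submodule.subset_span hc
    obtain ⟨h2, h3⟩ := (hFm c).1 h1
    obtain ⟨r, hr, hr0, hrc⟩ := hBm c h2
    obtain ⟨N, hN⟩ := mem_mat_iff.1 hrc
    exact ⟨r, hr, hr0, N, hN, (alg_of_mem hr).mul (halg1 c h3)⟩
  choose! ρ hρ1 hρ2 ν hν using hgen
  set N0 := S.sup ν with hN0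
  have hspan : ∀ x ∈ F, ∃ r ∈ R, r ≠ 0 ∧ r * x ∈ T N0 := by
    intro x hx
    rw [← hS] at hx
    refine Submodule.span_induction (p := fun x _ => ∃ r ∈ R, r ≠ 0 ∧ r * x ∈ T N0) ?_ ?_ ?_ ?_ hx
    · intro c hc
      exact ⟨ρ c, hρ1 c hc, hρ2 c hc, hTmono (Finset.le_sup hc) (hν c hc)⟩
    · refine ⟨1, R.one_mem, one_ne_zero, ?_⟩
      rw [mul_zero]
      exact Submodule.zero_mem _
    · rintro x y _ _ ⟨r, hr, hr0, hx⟩ ⟨s, hs, hs0, hy⟩
      refine ⟨r * s, R.mul_mem hr hs, mul_ne_zero hr0 hs0, ?_⟩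
      have h1 : r * s * (x + y) = s * (r * x) + r * (s * y) := by ring
      rw [h1]
      exact Submodule.add_mem _ ((T N0).smul_mem (⟨s, hs⟩ : R) hx)
        ((T N0).smul_mem (⟨r, hr⟩ : R) hy)
    · rintro ⟨l, s, hs, hs0, hsl⟩ x _ ⟨r, hr, hr0, hx⟩
      refine ⟨s * r, R.mul_mem hs hr, mul_ne_zero hs0 hr0, ?_⟩
      have h1 : s * r * ((⟨l, s, hs, hs0, hsl⟩ : L) • x) = (s * l) * (r * x) := by
        change s * r * (l * x) = _
        ring
      rw [h1]
      exact (T N0).smul_mem (⟨s * l, hsl⟩ : R) hx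
  have hle : ∀ N, T N ≤ T N0 := by
    intro N
    refine hGS.le (hTG N) (hTG N0) (hTfg N) ?_ hR
    intro x hx
    apply hspan
    rw [hFm]
    exact ⟨hMB x (mem_mat_iff.2 ⟨N, hx.1⟩), halg2 x hx.2⟩
  refine ⟨T N0, hTfg N0, ?_⟩
  intro x
  constructor
  · intro hx
    exact ⟨mem_mat_iff.2 ⟨N0, hx.1⟩, hx.2⟩
  · rintro ⟨hx1, hx2⟩
    obtain ⟨N, hN⟩ := mem_mat_iff.1 hx1
    exact hle N ⟨hN, hx2⟩

end Pool.Agent.Y312.IR
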